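import Pool.Agent.H87.EBK.Stmts3

/-!
Row LO0 of the board `ebt` (MP_93721d_nt).
-/

namespace Pool.EBK

private theorem lo0_val (k m : ℕ) (hm : m ≠ 0) (h2 : ¬ 2 ∣ m) : v ((2 ^ k * m : ℕ) : ℚ) = k := by
  have h1 : v ((2 ^ k * m : ℕ) : ℚ) = (padicValNat 2 (2 ^ k * m) : ℤ) := padicValRat.of_nat
  rw [h1, padicValNat.mul (by positivity) hm, padicValNat.prime_pow,
    padicValNat.eq_zero_of_not_dvd h2]
  simp

theorem lo0 : LO0 := by
  have h240 : v (240 : ℚ) = 4 := by
    have h := lo0_val 4 15 (by norm_num) (by norm_num)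
    norm_num at h
    exact_mod_cast h
  have h44 : v (44 : ℚ) = 2 := by
    have h := lo0_val 2 11 (by norm_num) (by norm_num)
    norm_num at h
    exact_mod_cast h
  have h117 : v (117 : ℚ) = 0 := by
    have h := lo0_val 0 117 (by norm_num) (by norm_num)
    norm_num at h
    exact_mod_cast h
  refine ⟨240, 44, ⟨⟨by norm_num, by norm_num, 244, by norm_num⟩, 117,
    ⟨by norm_num, ⟨267, by norm_num⟩, ⟨125, by norm_num⟩⟩, ?_, ?_⟩, ?_⟩
  · rw [h240, h117]
    norm_num
  · rw [h44, h117]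
    norm_num
  · rw [h44, h240]
    norm_num

end Pool.EBK
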